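import Pool.Agent.MP_52bf41_ag.H12.Spec

/-! Affineness of the complement of the poles, and constancy of functions on proper curves. -/

open AlgebraicGeometry CategoryTheory Limits IsLocalRing Polynomial

namespace Pool.Agent.MP_52bf41_ag.H18

open H12

theorem ev_spec {R K : Type} [CommRing R] [CommRing K] (φ : R →+* K) {C : Scheme.{0}}
    (τ : Spec (.of R) ⟶ C) {O : C.Opens} (h : ⊤ ≤ τ ⁻¹ᵁ O) (h') (b : Γ(C, O)) :
    ev (Spec.map (CommRingCat.ofHom φ) ≫ τ) h' b = φ (ev τ h b) := by
  apply pb_id_bijective.1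
  have h0 : ⊤ ≤ Spec.map (CommRingCat.ofHom φ) ⁻¹ᵁ ⊤ := le_top
  rw [pb_ev, ← pb_spec, Category.id_comp, ← pl_pl τ _ h h0, ← pb_ev τ h, ← alg_top, pl_alg,
    alg_top, Category.comp_id]

/-- The valuative criterion for the map given by the functions `v`. -/
theorem exists_lift {A : Type} [CommRing A] {C : Scheme.{0}} (p : C ⟶ Spec (.of A))
    [UniversallyClosed p] (O : C.Opens) {L : Type} (v : L → Γ(C, O))
    (hO : ∀ x, x ∉ O → ∃ (l : L) (U : C.Opens) (s r : Γ(C, U)), x ∉ C.basicOpen s ∧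
      x ∈ C.basicOpen r ∧
      res (inf_le_left : U ⊓ O ≤ _) s * res inf_le_right (v l) = res inf_le_left r)
    (ψ : O.toScheme ⟶ Spec (.of (MvPolynomial L A)))
    (h1 : ψ ≫ Spec.map (CommRingCat.ofHom MvPolynomial.C) = O.ι ≫ p)
    (h2 : ∀ l, pb ψ (MvPolynomial.X l) = pl O.ι (by simp) (v l)) :
    ValuativeCriterion.Existence ψ := by
  intro S
  have hp : ValuativeCriterion.Existence p := by
    have := ‹UniversallyClosed p›
    rw [UniversallyClosed.eq_valuativeCriterion] at this
    exact this.1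
  obtain ⟨τ, t1, t2⟩ := (hp
    { R := S.R, K := S.K, i₁ := S.i₁ ≫ O.ι
      i₂ := S.i₂ ≫ Spec.map (CommRingCat.ofHom MvPolynomial.C)
      commSq := ⟨by rw [Category.assoc, ← h1, S.commSq.w_assoc]⟩ }).exists_lift
  dsimp only at t1 t2
  have inj : Function.Injective (algebraMap S.R S.K) := IsFractionRing.injective _ _
  have hx : τ (closedPoint S.R) ∈ O := by
    by_contra hx
    obtain ⟨l, U, s, r, hs, hr, e⟩ := hO _ hx
    have hU := top_le_preimage τ (C.basicOpen_le r hr)
    rw [← isUnit_ev_iff τ hU] at hs hr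
    have hO' : ⊤ ≤ (S.i₁ ≫ O.ι) ⁻¹ᵁ O := fun x _ => (S.i₁ x).2
    have hU' : ⊤ ≤ (S.i₁ ≫ O.ι) ⁻¹ᵁ U := fun x _ => by
      rw [← t1]; exact hU trivial
    have e' := congrArg (ev (S.i₁ ≫ O.ι) (O := U ⊓ O) fun x hx => ⟨hU' hx, hO' hx⟩) e
    rw [map_mul, ev_res, ev_res, ev_res] at e'
    have a : ∀ b : Γ(C, U), ev (S.i₁ ≫ O.ι) hU' b = algebraMap S.R S.K (ev τ hU b) := fun b => by
      rw [← ev_spec _ τ hU (by rw [t1]; exact hU')]
      simp only [t1]
    have b : ev (S.i₁ ≫ O.ι) hO' (v l) =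
        algebraMap S.R S.K (ev S.i₂ (O := ⊤) le_top (pb (𝟙 _) (MvPolynomial.X l))) := by
      rw [← ev_spec _ S.i₂ le_top le_top]
      apply pb_id_bijective.1
      rw [pb_ev, pb_ev, ← alg_top, pl_alg, Category.comp_id, ← S.commSq.w, alg_top, pb_comp, h2,
        ← pl_top, pl_pl]
    rw [a, a, b, ← map_mul] at e'
    exact hs (isUnit_of_mul_isUnit_left (inj e' ▸ hr))
  have hr : Set.range τ ⊆ Set.range O.ι := by
    rintro _ ⟨x, rfl⟩
    exact ⟨⟨_, top_le_preimage τ hx trivial⟩, rfl⟩
  have l1 : Spec.map (CommRingCat.ofHom (algebraMap S.R S.K)) ≫ IsOpenImmersion.lift O.ι τ hr =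
      S.i₁ := by
    rw [← cancel_mono O.ι, Category.assoc, IsOpenImmersion.lift_fac, t1]
  refine ⟨⟨⟨IsOpenImmersion.lift O.ι τ hr, l1, hom_ext_pb (RingHom.ext fun b => ?_)⟩⟩⟩
  have k : ∀ i : Spec (.of S.R) ⟶ Spec (.of (MvPolynomial L A)),
      pb i b = pb (𝟙 _) (ev i (O := ⊤) le_top (pb (𝟙 _) b)) := fun i => by
    rw [pb_ev, ← alg_top (𝟙 _), pl_alg, alg_top, Category.comp_id]
  rw [k, k S.i₂]
  congr 1
  apply inj
  rw [← ev_spec _ _ le_top le_top, ← ev_spec _ _ le_top le_top]
  simp only [← Category.assoc, l1, S.commSq.w]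

theorem sAff : SAff := by
  intro A _ _ _ C p _ O L _ v hdim hcomp hO
  obtain ⟨ψ, hψ⟩ := exists_pb (C := O.toScheme)
    (MvPolynomial.eval₂Hom (pb (O.ι ≫ p)) fun l => pl O.ι (V := ⊤) (by simp) (v l))
  set q : Spec (.of (MvPolynomial L A)) ⟶ Spec (.of A) :=
    Spec.map (CommRingCat.ofHom MvPolynomial.C) with hq
  have h1 : ψ ≫ q = O.ι ≫ p :=
    hom_ext_pb (RingHom.ext fun a => by rw [hq, pb_spec, hψ, MvPolynomial.eval₂Hom_C])
  have : IsLocallyNoetherian C := LocallyOfFiniteType.isLocallyNoetherian p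
  have : CompactSpace C := (quasiCompact_iff_compactSpace p).1 inferInstance
  have : IsNoetherian C := {}
  have : CompactSpace O.toScheme :=
    isCompact_iff_compactSpace.1 (TopologicalSpace.NoetherianSpace.isCompact (O : Set C))
  have : QuasiCompact ψ := inferInstance
  have : UniversallyClosed ψ := .of_valuativeCriterion _
    (exists_lift p O v hO ψ h1 fun l => by rw [hψ, MvPolynomial.eval₂Hom_X'])
  have : LocallyOfFiniteType (ψ ≫ q) := h1 ▸ inferInstance
  have : LocallyOfFiniteType ψ := locallyOfFiniteType_of_comp ψ q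
  have : IsSeparated (ψ ≫ q) := h1 ▸ inferInstance
  have : IsSeparated ψ := .of_comp ψ q
  have : IsProper ψ := {}
  have : LocallyOfFiniteType q := by
    rw [hq, HasRingHomProperty.Spec_iff (P := @LocallyOfFiniteType)]
    exact RingHom.finiteType_algebraMap.2 (inferInstance : Algebra.FiniteType A (MvPolynomial L A))
  have : LocallyQuasiFinite ψ := by
    refine .of_finite_preimage_singleton _ fun y => ?_
    refine Set.Finite.of_finite_image (f := O.ι) ?_ O.ι.isOpenEmbedding.injective.injOn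
    by_cases hy : IsClosed {y}
    · have := isClosed_singleton_iff_isClosedImmersion.1 hy
      set j := Scheme.fromSpecResidueField _ y
      have : IsFinite (j ≫ q) := isFinite_iff_locallyOfFiniteType_of_jacobsonSpace.2 inferInstance
      have : UniversallyClosed ((pullback.fst ψ j ≫ O.ι) ≫ p) := by
        rw [Category.assoc, ← h1, pullback.condition_assoc]
        infer_instance
      have : UniversallyClosed (pullback.fst ψ j ≫ O.ι) := .of_comp_of_isSeparated _ p
      have hc := (pullback.fst ψ j ≫ O.ι).isClosedMap.isClosed_range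
      rw [Scheme.Hom.comp_base, TopCat.coe_comp, Set.range_comp, Scheme.Pullback.range_fst,
        Scheme.range_fromSpecResidueField] at hc
      obtain ⟨T, hT, hcl, hirr, e⟩ :=
        TopologicalSpace.NoetherianSpace.exists_finite_set_isClosed_irreducible hc
      rw [e]
      refine hT.sUnion fun Z hZ => ?_
      rcases hdim Z (hirr Z hZ) (hcl Z hZ) with h | ⟨z, rfl⟩
      · obtain ⟨z, hz, hzO⟩ := hcomp Z h
        obtain ⟨w, -, rfl⟩ := e.ge (Set.subset_sUnion_of_mem hZ hz)
        exact absurd w.2 hzO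
      · exact Set.finite_singleton z
    · refine Set.Finite.of_finite_image (f := fun x => closure {x})
        (TopologicalSpace.NoetherianSpace.finite_irreducibleComponents.subset ?_)
        fun a _ b _ h => (inseparable_iff_closure_eq.2 h).eq
      rintro _ ⟨_, ⟨x, hx, rfl⟩, rfl⟩
      refine (hdim _ isIrreducible_singleton.closure isClosed_closure).resolve_right ?_
      rintro ⟨z, hz⟩
      have e : O.ι x = z := hz.le (subset_closure rfl)
      have hc : IsClosed {x} := by
        have := (hz ▸ isClosed_closure : IsClosed {z}).preimage O.ι.continuous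
        rwa [← e, ← Set.image_singleton,
          O.ι.isOpenEmbedding.injective.preimage_image] at this
      have := ψ.isClosedMap _ hc
      rw [Set.image_singleton, show ψ x = y from hx] at this
      exact hy this
  have : IsFinite ψ := .of_isProper_of_locallyQuasiFinite ψ
  exact isAffine_of_isAffineHom ψ

theorem sConst : SConst := by
  intro A _ _ _ _ C p _ V b Z hZ hcl hV
  classical
  let I := Scheme.IdealSheafData.vanishingIdeal (X := C) ⟨Z, hcl⟩
  have hr : Set.range I.subschemeι = Z := by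
    rw [Scheme.IdealSheafData.range_subschemeι]
    rfl
  set i := I.subschemeι
  have hi : ⊤ ≤ i ⁻¹ᵁ V := fun x _ => hV (hr ▸ Set.mem_range_self x)
  have hint : (pb (i ≫ p)).IsIntegral := by
    apply RingHom.isIntegral_respectsIso.2 (e := (Scheme.ΓSpecIso _).symm.commRingCatIsoToRingEquiv)
    exact isIntegral_appTop_of_universallyClosed (i ≫ p)
  obtain ⟨P, hP, hPb⟩ := hint (pl i hi b)
  choose σ hσ using residue_surjective (R := A)
  have hnil : ∀ a, residue A a = 0 → IsNilpotent a := fun a ha => by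
    rw [← mem_nilradical, nilradical, ← IsArtinianRing.jacobson_eq_radical,
      jacobson_eq_maximalIdeal _ (by exact bot_ne_top)]
    exact (residue_eq_zero_iff a).1 ha
  let W : ResidueField A → Set C := fun c => (C.basicOpen (b - alg p V (σ c)) : Set C)ᶜ
  set T := (P.map (residue A)).roots
  have hQ : IsNilpotent (P - (T.map fun c => X - Polynomial.C (σ c)).prod) := by
    refine Polynomial.isNilpotent_iff.2 fun n => hnil _ ?_
    rw [← coeff_map, Polynomial.map_sub, (IsAlgClosed.splits _).eq_prod_roots_of_monic (hP.map _),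
      Polynomial.map_multiset_prod, Multiset.map_map]
    simp [hσ, T]
  have hcov : Z ⊆ ⋃ c ∈ T.toFinset, W c := by
    rw [← hr]
    rintro _ ⟨z, rfl⟩
    have h0 := basicOpen_of_isNilpotent (hQ.map (eval₂RingHom (pb (i ≫ p)) (pl i hi b))).neg
    rw [map_sub, coe_eval₂RingHom, hPb, zero_sub, neg_neg, eval₂_multiset_prod,
      Multiset.map_map] at h0
    by_contra hz
    simp only [Set.mem_iUnion, not_exists, W, Set.mem_compl_iff, not_not,
      Multiset.mem_toFinset] at hz
    suffices h : ∀ T' : Multiset (ResidueField A), (∀ c ∈ T', c ∈ T) → z ∈ I.subscheme.basicOpen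
        (T'.map (eval₂ (pb (i ≫ p)) (pl i hi b) ∘ fun c => X - Polynomial.C (σ c))).prod by
      exact (h0.le (h T fun _ h => h) : False)
    intro T'
    induction T' using Multiset.induction_on with
    | empty => intro _; simp
    | cons c T' ih =>
      intro h
      rw [Multiset.map_cons, Multiset.prod_cons, mem_basicOpen_mul]
      refine ⟨?_, ih fun c hc => h c (Multiset.mem_cons_of_mem hc)⟩
      rw [Function.comp_apply, eval₂_sub, eval₂_X, eval₂_C, ← alg_top, ← pl_alg i p hi, ← map_sub,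
        basicOpen_pl]
      exact ⟨trivial, hz c (h c (Multiset.mem_cons_self _ _))⟩
  have hdis : ∀ c c', c ≠ c' → Z ∩ W c ∩ W c' = ∅ := fun c c' h => by
    refine Set.eq_empty_of_forall_notMem fun z ⟨⟨hz, h1⟩, h2⟩ => ?_
    have hu : IsUnit (σ c' - σ c) := by
      rw [← residue_ne_zero_iff_isUnit, map_sub, hσ, hσ]
      exact sub_ne_zero.2 h.symm
    have := not_mem_basicOpen_add h1 (not_mem_basicOpen_mul (-1) h2)
    rw [show b - alg p V (σ c) + -1 * (b - alg p V (σ c')) = alg p V (σ c' - σ c) by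
      rw [map_sub]; ring, basicOpen_of_isUnit (hu.map _)] at this
    exact this (hV hz)
  have hW : ∀ c, IsClosed (W c) := fun c => (C.basicOpen _).isOpen.isClosed_compl
  rcases Z.eq_empty_or_nonempty with rfl | ⟨z, hz⟩
  · exact ⟨0, fun _ h => h.elim⟩
  obtain ⟨c, hc⟩ := Set.mem_iUnion.1 (hcov hz)
  obtain ⟨-, hc⟩ := Set.mem_iUnion.1 hc
  refine ⟨σ c, fun y hy => ?_⟩
  by_contra hyc
  obtain ⟨w, hw, hwc, hw'⟩ := isPreconnected_closed_iff.1 hZ (W c)
    (⋃ c' ∈ T.toFinset.erase c, W c') (hW c) (isClosed_biUnion_finset fun c' _ => hW c')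
    (fun x hx => by
      obtain ⟨c', hc'⟩ := Set.mem_iUnion.1 (hcov hx)
      obtain ⟨h1, h2⟩ := Set.mem_iUnion.1 hc'
      by_cases e : c' = c
      · exact Or.inl (e ▸ h2)
      · exact Or.inr (Set.mem_biUnion (Finset.mem_erase.2 ⟨e, h1⟩) h2))
    ⟨z, hz, hc⟩ (by
      obtain ⟨c', hc'⟩ := Set.mem_iUnion.1 (hcov hy)
      obtain ⟨h1, h2⟩ := Set.mem_iUnion.1 hc'
      exact ⟨y, hy, Set.mem_biUnion (Finset.mem_erase.2 ⟨fun e => by subst e; exact h2 hyc, h1⟩) h2⟩)
  obtain ⟨c', hc'⟩ := Set.mem_iUnion.1 hw'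
  obtain ⟨h1, h2⟩ := Set.mem_iUnion.1 hc'
  exact (hdis c c' (Finset.mem_erase.1 h1).1.symm).le ⟨⟨hw, hwc⟩, h2⟩

instance (k : Type) [Field k] : _root_.IsReduced (NodeRing k) := by
  rw [← Ideal.isRadical_iff_quotient_reduced]
  rintro f ⟨n, hn⟩
  rw [Ideal.mem_span_singleton] at hn ⊢
  have : IsDomain (MvPowerSeries (Fin 2) k) := NoZeroDivisors.to_isDomain _
  have key : ∀ (i : Fin 2) (g : MvPowerSeries (Fin 2) k), MvPowerSeries.X i ∣ g ↔
      MvPowerSeries.rescale (fun j => if j = i then 0 else 1) g = 0 := fun i g => by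
    rw [MvPowerSeries.X_dvd_iff, MvPowerSeries.ext_iff]
    refine forall_congr' fun m => ?_
    rw [MvPowerSeries.coeff_rescale, map_zero, Finsupp.prod_fintype _ _ (by simp)]
    by_cases h : m i = 0
    · rw [Finset.prod_eq_one fun j _ => by split_ifs with e <;> simp [e, h]]
      simp [h]
    · rw [Finset.prod_eq_zero (Finset.mem_univ i) (by simp [h])]
      simp [h]
  have d : ∀ i : Fin 2, MvPowerSeries.X i ∣ f ^ n → MvPowerSeries.X i ∣ f := fun i h => by
    rw [key] at h ⊢
    rw [map_pow] at h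
    exact IsNilpotent.eq_zero ⟨n, h⟩
  obtain ⟨g, rfl⟩ := d 0 ((dvd_mul_right _ _).trans hn)
  have h1 := d 1 ((dvd_mul_left _ _).trans hn)
  rw [key, map_mul, mul_eq_zero, ← key, ← key] at h1
  refine mul_dvd_mul_left _ (h1.resolve_left fun h => ?_)
  have := MvPowerSeries.X_dvd_iff.1 h (Finsupp.single 0 1) (by simp)
  simp at this

theorem sH0 : SH0 := by
  intro k _ _ F _ hF b
  have : IsAlgClosed (ResidueField k) := IsAlgClosed.of_ringEquiv k _
    (RingEquiv.ofBijective (residue k) ⟨(residue k).injective, residue_surjective⟩)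
  have := hF.1
  obtain ⟨c, hc⟩ := sConst k F.C F.π ⊤ b Set.univ isPreconnected_univ isClosed_univ le_rfl
  refine ⟨c, ?_⟩
  have : IsLocallyNoetherian F.C := LocallyOfFiniteType.isLocallyNoetherian F.π
  have : CompactSpace F.C := (quasiCompact_iff_compactSpace F.π).1 inferInstance
  have hn : IsNilpotent (b - alg F.π ⊤ c) :=
    (Scheme.isNilpotent_iff_basicOpen_eq_bot _).2 (eq_bot_iff.2 fun y hy => hc y trivial hy)
  rw [← alg_top, eq_comm, ← sub_eq_zero]
  refine eq_of_local fun x _ => ?_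
  obtain ⟨y, hy, hcl⟩ := (isClosed_closure (s := {x})).exists_closed_singleton
    ⟨x, subset_closure rfl⟩
  have : _root_.IsReduced (AdicCompletion (maximalIdeal (F.C.presheaf.stalk y))
      (F.C.presheaf.stalk y)) := by
    rcases hF.2.2.1 y hcl with ⟨-, ⟨e⟩⟩ | ⟨-, ⟨e⟩⟩ <;> exact isReduced_of_injective e e.injective
  have : _root_.IsReduced (F.C.presheaf.stalk y) :=
    isReduced_of_injective (algebraMap _ (AdicCompletion (maximalIdeal (F.C.presheaf.stalk y))
      (F.C.presheaf.stalk y))) (AdicCompletion.of_injective _ _)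
  have h0 := (hn.map (F.C.presheaf.germ ⊤ y trivial).hom).eq_zero
  obtain ⟨W, hW, i1, i2, e⟩ := F.C.presheaf.germ_eq (U := ⊤) (V := ⊤) y trivial trivial _ 0
    (h0.trans (map_zero _).symm)
  exact ⟨W, le_top, (specializes_iff_mem_closure.2 hy).mem_open W.isOpen hW, e⟩

end Pool.Agent.MP_52bf41_ag.H18
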